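import Pool.Agent.Helper99.WP.GoalsW

/-!
# WP, packet VEX: expansion of the visit probabilities over paths
-/

open Finset

namespace Pool.Agent.Helper60.WP

open Pool.Agent.Helper99.WP Pool.Agent.Helper99.ERW

section
variable {V : Type} [DecidableEq V]

lemma wk_none (ξ : V → ℕ → Option V) (x : V) (t : ℕ) (h : (wk ξ x t).1 = none) :
    (wk ξ x (t + 1)).1 = none := by
  rcases e : wk ξ x t with ⟨_ | y, v⟩
  · simp [wk, e]
  · rw [e] at h
    simp at h

lemma wk_used (ξ : V → ℕ → Option V) (x : V) (t : ℕ) :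
    (wk ξ x (t + 1)).2 x = (wk ξ x t).2 x + if (wk ξ x t).1 = some x then 1 else 0 := by
  rcases e : wk ξ x t with ⟨_ | y, v⟩
  · simp [wk, e]
  · simp only [wk, e]
    by_cases hy : y = x
    · subst hy
      simp
    · rw [Function.update_of_ne (Ne.symm hy)]
      simp [hy]

lemma sum_vis (ξ : V → ℕ → Option V) (x : V) (i T : ℕ) :
    (∑ m ∈ Finset.range T, if (wk ξ x m).1 = some x ∧ (wk ξ x m).2 x = i then (1 : ℝ) else 0) =
      if i < (wk ξ x T).2 x then 1 else 0 := by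
  induction T with
  | zero => simp [wk]
  | succ T ih =>
    rw [Finset.sum_range_succ, ih, wk_used]
    by_cases h1 : (wk ξ x T).1 = some x
    · rw [if_pos h1]
      rcases lt_trichotomy i ((wk ξ x T).2 x) with h2 | h2 | h2
      · rw [if_pos h2, if_neg (by omega), if_pos (by omega), add_zero]
      · rw [if_neg (by omega), if_pos ⟨h1, h2.symm⟩, if_pos (by omega), zero_add]
      · rw [if_neg (by omega), if_neg (by omega), if_neg (by omega), add_zero]
    · have h2 : ¬((wk ξ x T).1 = some x ∧ (wk ξ x T).2 x = i) := fun h => h1 h.1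
      rw [if_neg h1, if_neg h2, add_zero, add_zero]

lemma wk_alive (ξ : V → ℕ → Option V) (x : V) {k m : ℕ} (hkm : k ≤ m)
    (h : (wk ξ x m).1 ≠ none) : (wk ξ x k).1 ≠ none := by
  induction m, hkm using Nat.le_induction with
  | base => exact h
  | succ m _ ih => exact ih (fun h0 => h (wk_none ξ x m h0))

omit [DecidableEq V] in
lemma exN_of_le {m : ℕ} (π : Fin (m + 1) → V) {k : ℕ} (hk : k ≤ m) :
    exN π k = π ⟨k, by omega⟩ := by
  unfold exN
  congr 1
  apply Fin.ext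
  exact min_eq_left hk

lemma path_iff (hFOL : FOL_stmt) (ξ : V → ℕ → Option V) (x : V) (i m : ℕ)
    (π : Fin (m + 1) → V) :
    (exN π 0 = x ∧ exN π m = x ∧ cnt (exN π) m = i ∧
      ∀ k < m, ξ (exN π k) (cnt (exN π) k) = some (exN π (k + 1))) ↔
    ((∀ k ≤ m, (wk ξ x k).1 = some (exN π k)) ∧ (wk ξ x m).1 = some x ∧
      (wk ξ x m).2 x = i) := by
  obtain ⟨h1, h2⟩ := hFOL V ξ x (exN π) m
  constructor
  · rintro ⟨a, b, c, e⟩
    have h3 := h1.2 ⟨a, e⟩
    refine ⟨h3, ?_, ?_⟩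
    · rw [h3 m le_rfl, b]
    · rw [h2 h3 x, ← c]
      unfold cnt
      rw [b]
  · rintro ⟨a, b, c⟩
    obtain ⟨h4, h5⟩ := h1.1 a
    have h6 : exN π m = x := by
      have := a m le_rfl
      rw [b] at this
      exact (Option.some.inj this).symm
    refine ⟨h4, h6, ?_, h5⟩
    rw [← c, h2 a x]
    unfold cnt
    rw [h6]

lemma sum_path [Fintype V] (hFOL : FOL_stmt) (ξ : V → ℕ → Option V) (x : V) (i m : ℕ) :
    (∑ π : Fin (m + 1) → V, if exN π 0 = x ∧ exN π m = x ∧ cnt (exN π) m = i ∧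
      ∀ k < m, ξ (exN π k) (cnt (exN π) k) = some (exN π (k + 1)) then (1 : ℝ) else 0) =
    if (wk ξ x m).1 = some x ∧ (wk ξ x m).2 x = i then 1 else 0 := by
  have e : ∀ π : Fin (m + 1) → V, (if exN π 0 = x ∧ exN π m = x ∧ cnt (exN π) m = i ∧
      ∀ k < m, ξ (exN π k) (cnt (exN π) k) = some (exN π (k + 1)) then (1 : ℝ) else 0) =
      if (∀ k ≤ m, (wk ξ x k).1 = some (exN π k)) ∧ (wk ξ x m).1 = some x ∧
      (wk ξ x m).2 x = i then (1 : ℝ) else 0 := by
    intro π
    exact if_congr (path_iff hFOL ξ x i m π) rfl rfl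
  rw [Finset.sum_congr rfl (fun π _ => e π)]
  by_cases h : (wk ξ x m).1 = some x ∧ (wk ξ x m).2 x = i
  · rw [if_pos h]
    let π₀ : Fin (m + 1) → V := fun k => ((wk ξ x k).1).getD x
    have hπ₀ : ∀ k ≤ m, (wk ξ x k).1 = some (exN π₀ k) := by
      intro k hk
      rw [exN_of_le π₀ hk]
      have h0 : (wk ξ x k).1 ≠ none := wk_alive ξ x hk (by rw [h.1]; simp)
      obtain ⟨y, hy⟩ := Option.ne_none_iff_exists'.1 h0
      change (wk ξ x k).1 = some (((wk ξ x k).1).getD x)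
      rw [hy]
      rfl
    rw [Finset.sum_eq_single π₀]
    · rw [if_pos ⟨hπ₀, h⟩]
    · intro π _ hne
      rw [if_neg]
      rintro ⟨h1, -⟩
      apply hne
      funext k
      have h2 := h1 k (Nat.lt_succ_iff.1 k.2)
      rw [hπ₀ k (Nat.lt_succ_iff.1 k.2)] at h2
      have h3 := Option.some.inj h2
      rw [exN_of_le π₀ (Nat.lt_succ_iff.1 k.2), exN_of_le π (Nat.lt_succ_iff.1 k.2)] at h3
      exact h3.symm
    · intro h1
      exact absurd (Finset.mem_univ _) h1
  · rw [if_neg h]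
    apply Finset.sum_eq_zero
    intro π _
    rw [if_neg (fun h1 => h h1.2)]

end

theorem VEX (hTRM : TRM_stmt) (hWLB : WLB_stmt) (hFOL : FOL_stmt)
    (hFPR : FPR_stmt) : VEX_stmt := by
  intro V _ _ W N x i hW
  have key : ∀ a : V → Fin N → Option V, (if i ≤ nst (ext a) x then (1 : ℝ) else 0) =
      ∑ m ∈ Finset.range (N * Fintype.card V + 1), ∑ π : Fin (m + 1) → V,
        if exN π 0 = x ∧ exN π m = x ∧ cnt (exN π) m = i ∧
        ∀ k < m, ext a (exN π k) (cnt (exN π) k) = some (exN π (k + 1)) then (1 : ℝ) else 0 := by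
    intro a
    have hT := ((hTRM V N).2.2.2 a).1
    obtain ⟨hw1, hw2⟩ := hWLB V N (ext a) x hT
    have h1 := hw2 (N * Fintype.card V + 1) (hw1 _ (by omega))
    rw [Finset.sum_congr rfl (fun m _ => sum_path hFOL (ext a) x i m), sum_vis, h1]
    exact if_congr (by omega) rfl rfl
  have e1 : vis W N x i = ∑ a : V → Fin N → Option V, prb W N a *
      ∑ m ∈ Finset.range (N * Fintype.card V + 1), ∑ π : Fin (m + 1) → V,
        if exN π 0 = x ∧ exN π m = x ∧ cnt (exN π) m = i ∧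
        ∀ k < m, ext a (exN π k) (cnt (exN π) k) = some (exN π (k + 1)) then (1 : ℝ) else 0 := by
    unfold vis
    refine Finset.sum_congr rfl (fun a _ => ?_)
    rw [← key a]
  rw [e1]
  simp_rw [Finset.mul_sum]
  rw [Finset.sum_comm]
  refine Finset.sum_congr rfl (fun m _ => ?_)
  rw [Finset.sum_comm]
  refine Finset.sum_congr rfl (fun π _ => ?_)
  by_cases hA : exN π 0 = x ∧ exN π m = x ∧ cnt (exN π) m = i
  · have e2 : ∀ a : V → Fin N → Option V, (prb W N a * if exN π 0 = x ∧ exN π m = x ∧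
        cnt (exN π) m = i ∧ ∀ k < m, ext a (exN π k) (cnt (exN π) k) = some (exN π (k + 1))
        then (1 : ℝ) else 0) = prb W N a *
        if ∀ k < m, ext a (exN π k) (cnt (exN π) k) = some (exN π (k + 1)) then 1 else 0 := by
      intro a
      congr 1
      exact if_congr ⟨fun h => h.2.2.2, fun h => ⟨hA.1, hA.2.1, hA.2.2, h⟩⟩ rfl rfl
    rw [Finset.sum_congr rfl (fun a _ => e2 a), hFPR V W N (exN π) m hW]
    exact if_congr ⟨fun h => ⟨hA.1, hA.2.1, hA.2.2, h⟩, fun h => h.2.2.2⟩ rfl rfl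
  · rw [if_neg (fun h => hA ⟨h.1, h.2.1, h.2.2.1⟩)]
    apply Finset.sum_eq_zero
    intro a _
    rw [if_neg (fun h => hA ⟨h.1, h.2.1, h.2.2.1⟩), mul_zero]

end Pool.Agent.Helper60.WP
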